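import Mathlib

set_option autoImplicit false

open Matrix Finset

namespace Pool.Agent.Results.MP_25f4f2_al.StrictTauUnstable

/-- The minor of `A` with rows `α` and columns `β`, two increasing index sequences of length `k`. -/
noncomputable def minor {n k : ℕ} (A : Matrix (Fin n) (Fin n) ℂ) (α β : Fin k ↪o Fin n) : ℂ :=
  (A.submatrix α β).det

/-- The complex number `z` is real and positive. -/
def RealPos (z : ℂ) : Prop := z.im = 0 ∧ 0 < z.re

/-- The set of indices occurring in an increasing index sequence. -/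
def idx {n k : ℕ} (α : Fin k ↪o Fin n) : Finset (Fin n) := univ.image α

/-- The dispersal `#α - #(α ∩ β)` of the minor with rows `α` and columns `β`. -/
def dispersal {n k : ℕ} (α β : Fin k ↪o Fin n) : ℕ := k - (idx α ∩ idx β).card

/-- `A` is a P-matrix: all principal minors are (real and) positive. -/
def IsPMatrix {n : ℕ} (A : Matrix (Fin n) (Fin n) ℂ) : Prop :=
  ∀ (k : ℕ) (α : Fin k ↪o Fin n), RealPos (minor A α α)

/-- `A` is strict GKK: a P-matrix with `A[α,β] A[β,α] > 0` for every almost principal minor,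
that is, for every minor of dispersal `1`. -/
def IsStrictGKK {n : ℕ} (A : Matrix (Fin n) (Fin n) ℂ) : Prop :=
  IsPMatrix A ∧ ∀ (k : ℕ) (α β : Fin k ↪o Fin n), dispersal α β = 1 →
    RealPos (minor A α β * minor A β α)

/-- `l(B)`: the least real eigenvalue of `B`, and `∞` if there is none. -/
noncomputable def leastReal {k : ℕ} (B : Matrix (Fin k) (Fin k) ℂ) : EReal :=
  sInf {x : EReal | ∃ r : ℝ, x = (r : EReal) ∧ (r : ℂ) ∈ spectrum ℂ B}

/-- `A` is a tau-matrix: `l(A(α)) ≤ l(A(β)) < ∞` whenever `∅ ≠ β ⊆ α`, and `l(A) ≥ 0`. -/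
def IsTau {n : ℕ} (A : Matrix (Fin n) (Fin n) ℂ) : Prop :=
  (∀ (k m : ℕ) (β : Fin k ↪o Fin n) (α : Fin m ↪o Fin n), 0 < k → idx β ⊆ idx α →
    leastReal (A.submatrix α α) ≤ leastReal (A.submatrix β β) ∧ leastReal (A.submatrix β β) < ⊤) ∧
  0 ≤ leastReal A

section Pivot
variable {ι : Type*} {K : Type*} [Field K]

/-- one step of Gaussian elimination with pivot `k` (Schur complement of the entry `k k`) -/
def piv (A : Matrix ι ι K) (k : ι) : Matrix ι ι K := fun i j => A i j - A i k * A k j / A k k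

theorem det_piv {m : ℕ} (A : Matrix ι ι K) (k : ι) (hk : A k k ≠ 0) (f g : Fin m → ι) :
    (A.submatrix (Fin.cons k f : Fin (m+1) → ι) (Fin.cons k g : Fin (m+1) → ι)).det
      = A k k * ((piv A k).submatrix f g).det := by
  set M := A.submatrix (Fin.cons k f : Fin (m+1) → ι) (Fin.cons k g : Fin (m+1) → ι) with hM
  let c : Fin (m+1) → K := Fin.cons 0 (fun i => A (f i) k / A k k)
  let B : Matrix (Fin (m+1)) (Fin (m+1)) K := fun i j => M i j - c i * M 0 j
  have h1 : M.det = B.det := by
    apply Matrix.det_eq_of_forall_row_eq_smul_add_const c 0 (by simp [c])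
    intro i j
    simp only [B, c]
    simp
  rw [h1, Matrix.det_succ_column_zero, Finset.sum_eq_single 0]
  · have h2 : B.submatrix (Fin.succAbove 0) Fin.succ = (piv A k).submatrix f g := by
      ext i j
      change M (Fin.succAbove 0 i) j.succ - c (Fin.succAbove 0 i) * M 0 j.succ = A (f i) (g j) - A (f i) k * A k (g j) / A k k
      rw [Fin.zero_succAbove]
      simp only [c, M, Matrix.submatrix_apply, Fin.cons_succ, Fin.cons_zero]
      ring
    rw [h2]
    simp [B, c, M]
  · intro i _ hi
    obtain ⟨i', rfl⟩ := Fin.exists_succ_eq.mpr hi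
    have : B i'.succ 0 = 0 := by
      simp only [B, c, M, Matrix.submatrix_apply, Fin.cons_succ, Fin.cons_zero]
      field_simp
      simp
    rw [this]; simp
  · simp

/-- successive elimination along a list of pivots -/
def pivL (A : Matrix ι ι K) : List ι → Matrix ι ι K
  | [] => A
  | k :: L => pivL (piv A k) L

/-- all pivots met along the list are nonzero -/
def PNZ (A : Matrix ι ι K) : List ι → Prop
  | [] => True
  | k :: L => A k k ≠ 0 ∧ PNZ (piv A k) L

/-- product of the pivots met along the list -/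
def pprod (A : Matrix ι ι K) : List ι → K
  | [] => 1
  | k :: L => A k k * pprod (piv A k) L

theorem det_list (m : ℕ) : ∀ (A : Matrix ι ι K) (h : Fin m → ι), PNZ A (List.ofFn h) →
    (A.submatrix h h).det = pprod A (List.ofFn h) := by
  induction m with
  | zero => intro A h _; simp [pprod]
  | succ m ih =>
    intro A h hp
    rw [List.ofFn_succ] at hp ⊢
    obtain ⟨h0, h1⟩ := hp
    have e : h = (Fin.cons (h 0) (fun i => h i.succ) : Fin (m+1) → ι) := by
      ext i; refine Fin.cases ?_ ?_ i <;> simp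
    have := det_piv A (h 0) h0 (fun i => h i.succ) (fun i => h i.succ)
    rw [← e] at this
    rw [this, ih _ _ h1]
    rfl

theorem det_list_snoc (m : ℕ) : ∀ (A : Matrix ι ι K) (h : Fin m → ι) (i j : ι), PNZ A (List.ofFn h) →
    (A.submatrix (Fin.snoc h i : Fin (m+1) → ι) (Fin.snoc h j : Fin (m+1) → ι)).det
      = pprod A (List.ofFn h) * pivL A (List.ofFn h) i j := by
  induction m with
  | zero => intro A h i j _; simp [pprod, pivL]; rfl
  | succ m ih =>
    intro A h i j hp
    rw [List.ofFn_succ] at hp ⊢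
    obtain ⟨h0, h1⟩ := hp
    have e : ∀ a : ι, (Fin.snoc h a : Fin (m+2) → ι) = (Fin.cons (h 0) (Fin.snoc (fun i => h i.succ) a : Fin (m+1) → ι) : Fin (m+2) → ι) := by
      intro a
      rw [Fin.cons_snoc_eq_snoc_cons]
      congr 1
      ext i; refine Fin.cases ?_ ?_ i <;> simp
    rw [e i, e j, det_piv A (h 0) h0, ih _ _ _ _ h1]
    simp only [pprod, pivL]
    ring

end Pivot

section Perm
variable {ι : Type*}

theorem exists_perm_of_range_eq {k : ℕ} {f g : Fin k → ι} (hf : Function.Injective f) (hg : Function.Injective g)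
    (h : Set.range f = Set.range g) : ∃ σ : Equiv.Perm (Fin k), g = f ∘ σ := by
  let e1 := Equiv.ofInjective f hf
  let e2 := Equiv.ofInjective g hg
  refine ⟨(e2.trans (Equiv.setCongr h.symm)).trans e1.symm, ?_⟩
  ext x
  simp only [Function.comp_apply, Equiv.trans_apply]
  have := Equiv.apply_ofInjective_symm hf ((Equiv.setCongr h.symm) (e2 x))
  rw [this]
  simp [e2]

variable {R : Type*} [CommRing R]

theorem det_mul_det_perm {k : ℕ} (M M' : Matrix (Fin k) (Fin k) R) (σ τ : Equiv.Perm (Fin k)) :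
    (M.submatrix σ τ).det * (M'.submatrix τ σ).det = M.det * M'.det := by
  have e1 : M.submatrix σ τ = (M.submatrix σ id).submatrix id τ := by simp
  have e2 : M'.submatrix τ σ = (M'.submatrix τ id).submatrix id σ := by simp
  rw [e1, e2, Matrix.det_permute', Matrix.det_permute', Matrix.det_permute, Matrix.det_permute]
  have h1 : ((Equiv.Perm.sign σ : ℤˣ) : ℤ) * ((Equiv.Perm.sign σ : ℤˣ) : ℤ) = 1 := by
    rw [← Units.val_mul, Int.units_mul_self]; rfl
  have h2 : ((Equiv.Perm.sign τ : ℤˣ) : ℤ) * ((Equiv.Perm.sign τ : ℤˣ) : ℤ) = 1 := by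
    rw [← Units.val_mul, Int.units_mul_self]; rfl
  have h1' : (((Equiv.Perm.sign σ : ℤˣ) : ℤ) : R) * (((Equiv.Perm.sign σ : ℤˣ) : ℤ) : R) = 1 := by
    exact_mod_cast congrArg (Int.cast : ℤ → R) h1
  have h2' : (((Equiv.Perm.sign τ : ℤˣ) : ℤ) : R) * (((Equiv.Perm.sign τ : ℤˣ) : ℤ) : R) = 1 := by
    exact_mod_cast congrArg (Int.cast : ℤ → R) h2
  calc _ = ((((Equiv.Perm.sign σ : ℤˣ) : ℤ) : R) * (((Equiv.Perm.sign σ : ℤˣ) : ℤ) : R)) *
            ((((Equiv.Perm.sign τ : ℤˣ) : ℤ) : R) * (((Equiv.Perm.sign τ : ℤˣ) : ℤ) : R)) * (M.det * M'.det) := by ring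
    _ = _ := by rw [h1', h2']; ring

theorem det_eq_of_range {k : ℕ} (A : Matrix ι ι R) {f g : Fin k → ι} (hf : Function.Injective f)
    (hg : Function.Injective g) (h : Set.range f = Set.range g) :
    (A.submatrix f f).det = (A.submatrix g g).det := by
  obtain ⟨σ, hσ⟩ := exists_perm_of_range_eq hf hg h
  rw [hσ]
  exact (Matrix.det_submatrix_equiv_self σ (A.submatrix f f)).symm

end Perm

section Transfer
variable {ι : Type*} {K : Type*} [Field K] [LinearOrder K] [IsStrictOrderedRing K]

/-- all pivots met along the list are positive -/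
def PP (A : Matrix ι ι K) : List ι → Prop
  | [] => True
  | k :: L => 0 < A k k ∧ PP (piv A k) L

instance decPP (A : Matrix ι ι ℚ) : (L : List ι) → Decidable (PP A L)
  | [] => isTrue trivial
  | k :: L => @instDecidableAnd _ _ _ (decPP (piv A k) L)

omit [IsStrictOrderedRing K] in
theorem PP.pnz : ∀ (L : List ι) (A : Matrix ι ι K), PP A L → PNZ A L
  | [], _, _ => trivial
  | _ :: L, _, h => ⟨h.1.ne', PP.pnz L _ h.2⟩

theorem PP.pprod_pos : ∀ (L : List ι) (A : Matrix ι ι K), PP A L → 0 < pprod A L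
  | [], _, _ => by simp [pprod]
  | _ :: L, _, h => mul_pos h.1 (PP.pprod_pos L _ h.2)

variable [DecidableEq ι]

theorem range_get (L : List ι) : Set.range L.get = (L.toFinset : Set ι) := by
  ext x; simp [List.mem_iff_get]

theorem principal_pos {A : Matrix ι ι K} {L : List ι} (hnd : L.Nodup) (hpp : PP A L) {k : ℕ}
    (f : Fin k → ι) (hf : Function.Injective f) (hr : univ.image f = L.toFinset) :
    0 < (A.submatrix f f).det := by
  have hlen : L.length = k := by
    rw [← List.toFinset_card_of_nodup hnd, ← hr, Finset.card_image_of_injective _ hf]; simp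
  subst hlen
  have hr' : Set.range f = Set.range L.get := by
    rw [range_get, ← hr]; simp
  rw [det_eq_of_range A hf (List.nodup_iff_injective_get.mp hnd) hr']
  have h2 := det_list L.length A L.get (by rw [List.ofFn_get]; exact PP.pnz _ _ hpp)
  rw [h2, List.ofFn_get]
  exact PP.pprod_pos _ _ hpp

omit [DecidableEq ι] in
theorem range_snoc {m : ℕ} (h : Fin m → ι) (i : ι) :
    Set.range (Fin.snoc h i : Fin (m+1) → ι) = insert i (Set.range h) := by
  ext x
  constructor
  · rintro ⟨t, rfl⟩
    refine Fin.lastCases ?_ (fun t => ?_) t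
    · simp
    · simp
  · rintro (rfl | ⟨t, rfl⟩)
    · exact ⟨Fin.last m, by simp⟩
    · exact ⟨t.castSucc, by simp⟩

omit [DecidableEq ι] in
theorem snoc_injective {m : ℕ} {h : Fin m → ι} (hh : Function.Injective h) {i : ι} (hi : i ∉ Set.range h) :
    Function.Injective (Fin.snoc h i : Fin (m+1) → ι) := by
  intro a b
  refine Fin.lastCases ?_ (fun a => ?_) a <;> refine Fin.lastCases ?_ (fun b => ?_) b
  · intro _; rfl
  · simp only [Fin.snoc_last, Fin.snoc_castSucc]
    intro h'; exact absurd ⟨b, h'.symm⟩ hi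
  · simp only [Fin.snoc_last, Fin.snoc_castSucc]
    intro h'; exact absurd ⟨a, h'⟩ hi
  · simp only [Fin.snoc_castSucc]
    intro h'; rw [hh h']

theorem almost_pos {A : Matrix ι ι K} (hA : ∀ G : Finset ι, ∃ L : List ι, L.Nodup ∧ L.toFinset = G ∧ PP A L ∧
    ∀ i j, i ∉ G → j ∉ G → i ≠ j → 0 < pivL A L i j * pivL A L j i) {k : ℕ} (f g : Fin k → ι)
    (hf : Function.Injective f)
    (hg : Function.Injective g) (hk : (univ.image f ∩ univ.image g).card + 1 = k) :
    0 < (A.submatrix f g).det * (A.submatrix g f).det := by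
  set G := univ.image f ∩ univ.image g with hG
  obtain ⟨L, hnd, hLG, hpp, hpair⟩ := hA G
  have hlen : L.length = G.card := by
    rw [← List.toFinset_card_of_nodup hnd, hLG]
  rw [← hlen] at hk
  subst hk
  have cf : (univ.image f).card = L.length + 1 := by
    rw [Finset.card_image_of_injective _ hf]; simp
  have cg : (univ.image g).card = L.length + 1 := by
    rw [Finset.card_image_of_injective _ hg]; simp
  have sf : G ⊆ univ.image f := Finset.inter_subset_left
  have sg : G ⊆ univ.image g := Finset.inter_subset_right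
  obtain ⟨i, hi⟩ := Finset.card_eq_one.mp (show (univ.image f \ G).card = 1 by
    rw [Finset.card_sdiff_of_subset sf, cf, hlen]; omega)
  obtain ⟨j, hj⟩ := Finset.card_eq_one.mp (show (univ.image g \ G).card = 1 by
    rw [Finset.card_sdiff_of_subset sg, cg, hlen]; omega)
  have hi' : i ∈ univ.image f \ G := by rw [hi]; simp
  have hj' : j ∈ univ.image g \ G := by rw [hj]; simp
  rw [Finset.mem_sdiff] at hi' hj'
  have hij : i ≠ j := by
    rintro rfl
    exact hi'.2 (Finset.mem_inter.mpr ⟨hi'.1, hj'.1⟩)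
  have ef : univ.image f = insert i G := by
    rw [← Finset.sdiff_union_of_subset sf, hi]; rfl
  have eg : univ.image g = insert j G := by
    rw [← Finset.sdiff_union_of_subset sg, hj]; rfl
  have rL : Set.range L.get = (G : Set ι) := by rw [range_get, hLG]
  have hLi := List.nodup_iff_injective_get.mp hnd
  have rf : Set.range f = Set.range (Fin.snoc L.get i : Fin (L.length+1) → ι) := by
    rw [range_snoc, rL]
    have := congrArg (fun s : Finset ι => (s : Set ι)) ef
    simpa using this
  have rg : Set.range g = Set.range (Fin.snoc L.get j : Fin (L.length+1) → ι) := by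
    rw [range_snoc, rL]
    have := congrArg (fun s : Finset ι => (s : Set ι)) eg
    simpa using this
  obtain ⟨σ, hσ⟩ := exists_perm_of_range_eq hf (snoc_injective hLi (by rw [rL]; exact_mod_cast hi'.2)) rf
  obtain ⟨τ, hτ⟩ := exists_perm_of_range_eq hg (snoc_injective hLi (by rw [rL]; exact_mod_cast hj'.2)) rg
  have hP : PNZ A (List.ofFn L.get) := by rw [List.ofFn_get]; exact PP.pnz _ _ hpp
  have d1 := det_list_snoc L.length A L.get i j hP
  have d2 := det_list_snoc L.length A L.get j i hP
  rw [hσ, hτ, List.ofFn_get] at d1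
  rw [hσ, hτ, List.ofFn_get] at d2
  have key := det_mul_det_perm (A.submatrix f g) (A.submatrix g f) σ τ
  rw [← key]
  have k1 : ((A.submatrix f g).submatrix σ τ).det = pprod A L * pivL A L i j := by
    rw [← d1]; rfl
  have k2 : ((A.submatrix g f).submatrix τ σ).det = pprod A L * pivL A L j i := by
    rw [← d2]; rfl
  rw [k1, k2]
  have := hpair i j hi'.2 hj'.2 hij
  have hpr := PP.pprod_pos _ _ hpp
  calc (0:K) < (pprod A L * pprod A L) * (pivL A L i j * pivL A L j i) := mul_pos (mul_pos hpr hpr) this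
    _ = _ := by ring

/-- if the last pivot is negative and the others are positive, the determinant is negative -/
theorem principal_neg {A : Matrix ι ι K} {L : List ι} {a : ι} (hnd : (L ++ [a]).Nodup) (hpp : PP A L)
    (hneg : pivL A L a a < 0) {k : ℕ}
    (f : Fin k → ι) (hf : Function.Injective f) (hr : univ.image f = (L ++ [a]).toFinset) :
    (A.submatrix f f).det < 0 := by
  have hnd' : L.Nodup := (List.nodup_append.mp hnd).1
  have ha : a ∉ L := by
    intro hk
    exact (List.nodup_append.mp hnd).2.2 a hk a (by simp) rfl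
  have hlen : L.length + 1 = k := by
    have h1 := List.toFinset_card_of_nodup hnd
    rw [← hr, Finset.card_image_of_injective _ hf] at h1
    simp at h1; omega
  subst hlen
  have hLi := List.nodup_iff_injective_get.mp hnd'
  have hr' : Set.range f = Set.range (Fin.snoc L.get a : Fin (L.length+1) → ι) := by
    rw [range_snoc, range_get]
    have := congrArg (fun s : Finset ι => (s : Set ι)) hr
    simp only [coe_image, coe_univ, Set.image_univ] at this
    rw [this]
    ext x
    simp
  rw [det_eq_of_range A hf (snoc_injective hLi (by rw [range_get]; simpa using ha)) hr',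
    det_list_snoc L.length A L.get a a (by rw [List.ofFn_get]; exact PP.pnz _ _ hpp), List.ofFn_get]
  exact mul_neg_of_pos_of_neg (PP.pprod_pos _ _ hpp) hneg

end Transfer

section Shift
variable {ι : Type*} [DecidableEq ι]

/-- all principal minors of `A` inside `Q` are positive -/
def PmOn (A : Matrix ι ι ℝ) (Q : Finset ι) : Prop :=
  ∀ (m : ℕ) (f : Fin m → ι), Function.Injective f → (∀ i, f i ∈ Q) → 0 < (A.submatrix f f).det

theorem PmOn.add_single {A : Matrix ι ι ℝ} {Q : Finset ι} (h : PmOn A Q) (j : ι) {x : ℝ} (hx : 0 ≤ x) :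
    PmOn (A + x • Matrix.single j j (1 : ℝ)) Q := by
  intro m f hf hfQ
  by_cases hj : ∃ i0, f i0 = j
  · obtain ⟨i0, rfl⟩ := hj
    rcases m with _ | m
    · exact i0.elim0
    have e : (A + x • Matrix.single (f i0) (f i0) (1 : ℝ)).submatrix f f =
        (A.submatrix f f).updateRow i0 ((A.submatrix f f) i0 + x • Pi.single i0 1) := by
      ext a b
      by_cases ha : a = i0
      · subst ha
        rw [updateRow_self]
        by_cases hb : b = a
        · subst hb; simp
        · have hb' : f a ≠ f b := fun hh => hb (hf hh).symm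
          simp [hb', hb]
      · rw [updateRow_ne ha]
        have ha' : f i0 ≠ f a := fun hh => ha (hf hh).symm
        simp [Matrix.single_apply_of_row_ne ha']
    rw [e, det_updateRow_add, det_updateRow_smul, updateRow_eq_self]
    have h1 := h (m + 1) f hf hfQ
    have h2 : 0 < ((A.submatrix f f).updateRow i0 (Pi.single i0 1)).det := by
      rw [← Matrix.adjugate_apply, Matrix.adjugate_fin_succ_eq_det_submatrix, ← two_mul, pow_mul, neg_one_sq, one_pow, one_mul]
      exact h m (fun i => f (i0.succAbove i)) (fun a b hab => Fin.succAbove_right_injective (hf hab)) (fun i => hfQ _)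
    positivity
  · push Not at hj
    have e : (A + x • Matrix.single j j (1 : ℝ)).submatrix f f = A.submatrix f f := by
      ext a b
      simp [Matrix.single_apply_of_row_ne (hj a).symm]
    rw [e]
    exact h m f hf hfQ

theorem PmOn.add_diag {A : Matrix ι ι ℝ} {Q : Finset ι} (h : PmOn A Q) {x : ℝ} (hx : 0 ≤ x) (S : Finset ι) :
    PmOn (A + ∑ j ∈ S, x • Matrix.single j j (1 : ℝ)) Q := by
  induction S using Finset.induction_on with
  | empty => simpa using h
  | insert a S ha ih =>
    rw [Finset.sum_insert ha, add_comm (x • _), ← add_assoc]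
    exact ih.add_single a hx

theorem PmOn.add_one [Fintype ι] {A : Matrix ι ι ℝ} {Q : Finset ι} (h : PmOn A Q) {x : ℝ} (hx : 0 ≤ x) :
    PmOn (A + x • (1 : Matrix ι ι ℝ)) Q := by
  have := h.add_diag hx univ
  have e : (∑ j : ι, x • Matrix.single j j (1 : ℝ)) = x • (1 : Matrix ι ι ℝ) := by
    rw [← Finset.smul_sum]
    congr 1
    ext i j
    rw [Matrix.sum_apply]
    by_cases hij : i = j
    · subst hij
      rw [Finset.sum_eq_single i]
      · simp
      · intro b _ hb
        rw [Matrix.single_apply_of_row_ne hb]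
      · simp
    · rw [Matrix.one_apply_ne hij]
      apply Finset.sum_eq_zero
      intro b _
      by_cases hb : b = i
      · subst hb; simp [hij]
      · rw [Matrix.single_apply_of_row_ne hb]
  rwa [e] at this

theorem PmOn.shift [Fintype ι] {A : Matrix ι ι ℝ} {Q : Finset ι} {r x : ℝ} (h : PmOn (A - r • (1 : Matrix ι ι ℝ)) Q) (hx : x ≤ r) :
    PmOn (A - x • (1 : Matrix ι ι ℝ)) Q := by
  have := h.add_one (x := r - x) (by linarith)
  have e : A - r • (1 : Matrix ι ι ℝ) + (r - x) • (1 : Matrix ι ι ℝ) = A - x • (1 : Matrix ι ι ℝ) := by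
    rw [sub_smul]; abel
  rwa [e] at this

end Shift

section Spectrum

theorem det_shift_zero {k : ℕ} {B : Matrix (Fin k) (Fin k) ℂ} {μ : ℂ} (h : μ ∈ spectrum ℂ B) :
    (B - μ • (1 : Matrix (Fin k) (Fin k) ℂ)).det = 0 := by
  by_contra hne
  rw [spectrum.mem_iff] at h
  apply h
  rw [Matrix.isUnit_iff_isUnit_det, isUnit_iff_ne_zero]
  intro h0
  apply hne
  have e : B - μ • (1 : Matrix (Fin k) (Fin k) ℂ) = -((algebraMap ℂ (Matrix (Fin k) (Fin k) ℂ)) μ - B) := by
    rw [Algebra.algebraMap_eq_smul_one]; abel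
  rw [e, Matrix.det_neg, h0, mul_zero]

theorem mem_spectrum_of_det {k : ℕ} {B : Matrix (Fin k) (Fin k) ℂ} {μ : ℂ}
    (h : (B - μ • (1 : Matrix (Fin k) (Fin k) ℂ)).det = 0) : μ ∈ spectrum ℂ B := by
  rw [spectrum.mem_iff, Matrix.isUnit_iff_isUnit_det, isUnit_iff_ne_zero]
  intro hne
  apply hne
  have e : (algebraMap ℂ (Matrix (Fin k) (Fin k) ℂ)) μ - B = -(B - μ • (1 : Matrix (Fin k) (Fin k) ℂ)) := by
    rw [Algebra.algebraMap_eq_smul_one]; abel
  rw [e, Matrix.det_neg, h, mul_zero]

theorem multiset_norm_bound {a : ℝ} (ha : 0 ≤ a) (s : Multiset ℂ) (h : ∀ r ∈ s, a ≤ ‖r‖) :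
    a ^ (Multiset.card s) ≤ ‖s.prod‖ := by
  induction s using Multiset.induction_on with
  | empty => simp
  | cons r s ih =>
    rw [Multiset.card_cons, Multiset.prod_cons, norm_mul, pow_succ, mul_comm]
    have h1 := h r (Multiset.mem_cons_self r s)
    have h2 := ih (fun t ht => h t (Multiset.mem_cons_of_mem ht))
    exact mul_le_mul h1 h2 (pow_nonneg ha _) (norm_nonneg _)

/-- if the determinant of `A + x` is too small, `A` has an eigenvalue with negative real part -/
theorem unstable_of_det_small {ι : Type*} [Fintype ι] [DecidableEq ι] (A : Matrix ι ι ℂ) (x : ℂ) (hx : 0 < x.re)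
    (hdet : ‖(A + x • (1 : Matrix ι ι ℂ)).det‖ < x.re ^ (Fintype.card ι)) : ∃ μ ∈ spectrum ℂ A, μ.re < 0 := by
  by_contra hcon
  push Not at hcon
  have hcard : Multiset.card (A + x • (1 : Matrix ι ι ℂ)).charpoly.roots = Fintype.card ι := by
    rw [← Matrix.charpoly_natDegree_eq_dim (A + x • (1 : Matrix ι ι ℂ))]
    exact (Polynomial.splits_iff_card_roots.mp (IsAlgClosed.splits _))
  have hb := multiset_norm_bound hx.le (A + x • (1 : Matrix ι ι ℂ)).charpoly.roots (fun r hr => by
    have h1 : r ∈ spectrum ℂ (A + x • (1 : Matrix ι ι ℂ)) := by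
      rw [Matrix.mem_spectrum_iff_isRoot_charpoly]
      exact (Polynomial.mem_roots'.mp hr).2
    have h2 : r - x ∈ spectrum ℂ A := by
      rw [spectrum.mem_iff] at h1 ⊢
      have e : (algebraMap ℂ (Matrix ι ι ℂ)) (r - x) - A = (algebraMap ℂ (Matrix ι ι ℂ)) r - (A + x • (1 : Matrix ι ι ℂ)) := by
        rw [map_sub, Algebra.algebraMap_eq_smul_one x]
        abel
      rw [e]; exact h1
    have h3 := hcon _ h2
    rw [Complex.sub_re] at h3
    calc x.re ≤ r.re := by linarith
      _ ≤ ‖r‖ := Complex.re_le_norm r)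
  rw [hcard, ← Matrix.det_eq_prod_roots_charpoly] at hb
  linarith

theorem leastReal_eq {k : ℕ} {B : Matrix (Fin k) (Fin k) ℂ} {t : ℝ}
    (h : IsLeast {r : ℝ | (r : ℂ) ∈ spectrum ℂ B} t) : leastReal B = (t : EReal) := by
  apply le_antisymm
  · exact sInf_le ⟨t, rfl, h.1⟩
  · apply le_sInf
    rintro x ⟨r, rfl, hr⟩
    exact EReal.coe_le_coe_iff.mpr (h.2 hr)

end Spectrum

section Roots

variable {n : ℕ}

/-- the characteristic function of the principal submatrix of `A` on `G` -/
noncomputable def D (A : Matrix (Fin n) (Fin n) ℝ) (G : Finset (Fin n)) (x : ℝ) : ℝ :=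
  ((A - x • (1 : Matrix (Fin n) (Fin n) ℝ)).submatrix (G.orderEmbOfFin rfl) (G.orderEmbOfFin rfl)).det

theorem D_eq (A : Matrix (Fin n) (Fin n) ℝ) (x : ℝ) {k : ℕ} (f : Fin k → Fin n) (hf : Function.Injective f) :
    ((A - x • (1 : Matrix (Fin n) (Fin n) ℝ)).submatrix f f).det = D A (univ.image f) x := by
  have hc : (univ.image f).card = k := by
    rw [Finset.card_image_of_injective _ hf]; simp
  have h1 : ∀ (m : ℕ) (g : Fin m → Fin n) (_ : Function.Injective g) (_ : m = k) (_ : Set.range f = Set.range g),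
      ((A - x • (1 : Matrix (Fin n) (Fin n) ℝ)).submatrix f f).det =
      ((A - x • (1 : Matrix (Fin n) (Fin n) ℝ)).submatrix g g).det := by
    rintro m g hg rfl hr
    exact det_eq_of_range _ hf hg hr
  exact h1 _ ((univ.image f).orderEmbOfFin rfl) (RelEmbedding.injective _) hc (by simp)

theorem D_cont (A : Matrix (Fin n) (Fin n) ℝ) (G : Finset (Fin n)) : Continuous (D A G) := by
  unfold D
  refine Continuous.matrix_det ?_
  refine continuous_matrix ?_
  intro i j
  simp only [submatrix_apply, Matrix.sub_apply, Matrix.smul_apply, smul_eq_mul]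
  fun_prop

theorem D_pos {A : Matrix (Fin n) (Fin n) ℝ} {Q : Finset (Fin n)} {r x : ℝ}
    (h : PmOn (A - r • (1 : Matrix (Fin n) (Fin n) ℝ)) Q) (hx : x ≤ r) : 0 < D A Q x :=
  (h.shift hx) _ _ (RelEmbedding.injective _) (fun i => Finset.orderEmbOfFin_mem Q rfl i)

/-- `t` is the least real eigenvalue on `G`, and no proper principal submatrix of it has a real
eigenvalue which is at most `t` -/
def T (A : Matrix (Fin n) (Fin n) ℝ) (G : Finset (Fin n)) (t : ℝ) : Prop :=
  0 < t ∧ D A G t = 0 ∧ (∀ x < t, 0 < D A G x) ∧ ∀ Q, Q ⊂ G → Q.Nonempty → ∀ x ≤ t, 0 < D A Q x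

theorem exists_T {A : Matrix (Fin n) (Fin n) ℝ} (hA : PmOn A univ) {G : Finset (Fin n)} {r : ℝ} (hr : 0 < r)
    (hneg : D A G r < 0) (hQ : ∀ Q, Q ⊂ G → Q.Nonempty → PmOn (A - r • (1 : Matrix (Fin n) (Fin n) ℝ)) Q) :
    ∃ t, T A G t := by
  have hnp : ∀ x ≤ 0, 0 < D A G x := by
    intro x hx
    have h0 : PmOn (A - (0 : ℝ) • (1 : Matrix (Fin n) (Fin n) ℝ)) univ := by simpa using hA
    exact (h0.shift hx) _ _ (RelEmbedding.injective _) (fun i => mem_univ _)
  have hc : IsCompact ({x : ℝ | D A G x = 0} ∩ Set.Icc 0 r) :=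
    isCompact_Icc.inter_left (isClosed_eq (D_cont A G) continuous_const)
  have hne : ({x : ℝ | D A G x = 0} ∩ Set.Icc 0 r).Nonempty := by
    obtain ⟨x, hx, hx0⟩ := intermediate_value_Icc' hr.le (D_cont A G).continuousOn
      (show (0 : ℝ) ∈ Set.Icc (D A G r) (D A G 0) from ⟨hneg.le, (hnp 0 le_rfl).le⟩)
    exact ⟨x, hx0, hx⟩
  obtain ⟨t, ht, htl⟩ := hc.exists_isLeast hne
  have ht0 : D A G t = 0 := ht.1
  have htpos : 0 < t := by
    rcases ht.2.1.lt_or_eq with h | h
    · exact h
    · have := hnp t h.symm.le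
      linarith
  have htr : t < r := by
    rcases ht.2.2.lt_or_eq with h | h
    · exact h
    · rw [h] at ht0; linarith
  refine ⟨t, htpos, ht0, ?_, ?_⟩
  · intro x hx
    rcases le_or_gt x 0 with h | h
    · exact hnp x h
    · by_contra hcon
      push Not at hcon
      obtain ⟨y, hy, hy0⟩ := intermediate_value_Icc' h.le (D_cont A G).continuousOn
        (show (0 : ℝ) ∈ Set.Icc (D A G x) (D A G 0) from ⟨hcon, (hnp 0 le_rfl).le⟩)
      have := htl ⟨hy0, hy.1, by linarith [hy.2]⟩
      linarith [hy.2]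
  · intro Q hQG hQn x hx
    exact D_pos (hQ Q hQG hQn) (by linarith)

theorem T_singleton {A : Matrix (Fin n) (Fin n) ℝ} {j : Fin n} (h : 0 < A j j) : T A {j} (A j j) := by
  have e : ∀ x, D A {j} x = A j j - x := by
    intro x
    have := D_eq A x (fun _ : Fin 1 => j) (fun a b _ => Subsingleton.elim a b)
    rw [show univ.image (fun _ : Fin 1 => j) = {j} by ext; simp [eq_comm]] at this
    rw [← this, det_fin_one]
    simp
  refine ⟨h, by rw [e]; ring, fun x hx => by rw [e]; linarith, ?_⟩
  intro Q hQ hQn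
  obtain ⟨i, hi⟩ := hQn
  exfalso
  have := Finset.ssubset_singleton_iff.mp hQ
  rw [this] at hi
  exact absurd hi (Finset.notMem_empty _)

end Roots

section Witness

/-- the rational witness of order 5 -/
def W : Matrix (Fin 5) (Fin 5) ℚ := fun i j =>
  if j = 0 then 50625 else if i = 0 then 160 else if i = j then 161
  else if j < i then 160 - 1 / 10 ^ 8
  else if (j : ℕ) = i + 1 then 1 / 10 ^ 8 else if (j : ℕ) = i + 2 then 1 / 10 ^ 15 else 1 / 10 ^ 23

/-- the increasing list of the indices `i` with `b i = true` -/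
def lst (b : Fin 5 → Bool) : List (Fin 5) := (List.finRange 5).filter (fun i => b i)

theorem W_check1 : ∀ b : Fin 5 → Bool, PP W (lst b) ∧
    ∀ i j, b i = false → b j = false → i ≠ j → 0 < pivL W (lst b) i j * pivL W (lst b) j i := by
  decide +kernel

/-- rational numbers separating the least real eigenvalue of `A(G)` from those of the smaller
principal submatrices; `G` is coded in binary -/
def rtab : List ℚ := [0, 0, 0, 1, 0, 1, 127350/791, 1/2, 0, 1, 402500160/2500001, 1/2, 127350/791,
  1/2, 90320/561, 1/3, 0, 1, 4025000000160/25000000001, 1/2, 402500160/2500001, 1/2, 26601660/165229,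
  1/3, 127350/791, 1/2, 26601660/165229, 1/3, 90320/561, 1/3, 79050/491, 1/86]

def rr (b : Fin 5 → Bool) : ℚ :=
  rtab.getD ((b 0).toNat + 2 * (b 1).toNat + 4 * (b 2).toNat + 8 * (b 3).toNat + 16 * (b 4).toNat) 0

/-- `W` shifted by a rational number -/
def Wr (r : ℚ) : Matrix (Fin 5) (Fin 5) ℚ := fun i j => if i = j then W i j - r else W i j

theorem W_check2 : ∀ b : Fin 5 → Bool, 2 ≤ (lst b).length →
    0 < rr b ∧ PP (Wr (rr b)) (lst b).dropLast ∧
    pivL (Wr (rr b)) (lst b).dropLast ((lst b).getLastD 0) ((lst b).getLastD 0) < 0 := by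
  decide +kernel

theorem W_check3 : ∀ b c : Fin 5 → Bool, 2 ≤ (lst b).length → (∀ i, c i = true → b i = true) → c ≠ b →
    PP (Wr (rr b)) (lst c) := by
  decide +kernel

theorem lst_nodup (b : Fin 5 → Bool) : (lst b).Nodup := (List.nodup_finRange 5).filter _

theorem lst_toFinset (G : Finset (Fin 5)) : (lst (fun i => decide (i ∈ G))).toFinset = G := by
  ext x; simp [lst]

/-- the real witness -/
noncomputable def WR : Matrix (Fin 5) (Fin 5) ℝ := W.map (fun q => (q : ℝ))

/-- the complex witness -/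
noncomputable def WC : Matrix (Fin 5) (Fin 5) ℂ := WR.map (fun q => (q : ℂ))

theorem det_rat {k : ℕ} (M : Matrix (Fin 5) (Fin 5) ℚ) (f g : Fin k → Fin 5) :
    ((M.map (fun q => (q : ℝ))).submatrix f g).det = (((M.submatrix f g).det : ℚ) : ℝ) := by
  have h := (Rat.castHom ℝ).map_det (M.submatrix f g)
  change (((M.submatrix f g).det : ℚ) : ℝ) = _ at h
  rw [h]
  rfl

theorem det_real {k : ℕ} (M : Matrix (Fin 5) (Fin 5) ℝ) (f g : Fin k → Fin 5) :
    ((M.map (fun q => (q : ℂ))).submatrix f g).det = (((M.submatrix f g).det : ℝ) : ℂ) := by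
  have h := Complex.ofRealHom.map_det (M.submatrix f g)
  change (((M.submatrix f g).det : ℝ) : ℂ) = _ at h
  rw [h]
  rfl

theorem WR_shift (r : ℚ) : WR - (r : ℝ) • (1 : Matrix (Fin 5) (Fin 5) ℝ) = (Wr r).map (fun q => (q : ℝ)) := by
  ext i j
  by_cases hij : i = j
  · subst hij; simp [WR, Wr]
  · simp [WR, Wr, hij]

theorem WR_pm : PmOn WR univ := by
  intro m f hf _
  unfold WR
  rw [det_rat]
  have := (W_check1 (fun i => decide (i ∈ univ.image f))).1
  exact_mod_cast principal_pos (lst_nodup _) this f hf (lst_toFinset _).symm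

theorem lst_length (G : Finset (Fin 5)) : (lst (fun i => decide (i ∈ G))).length = G.card := by
  rw [← List.toFinset_card_of_nodup (lst_nodup _), lst_toFinset]

theorem exists_T_WR (G : Finset (Fin 5)) (hG : G.Nonempty) : ∃ t, T WR G t := by
  rcases Nat.lt_or_ge G.card 2 with h | h
  · have h1 : G.card = 1 := by
      have := hG.card_pos
      omega
    obtain ⟨j, rfl⟩ := Finset.card_eq_one.mp h1
    refine ⟨_, T_singleton ?_⟩
    have := WR_pm 1 (fun _ => j) (fun a b _ => Subsingleton.elim a b) (fun _ => mem_univ _)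
    rw [det_fin_one] at this
    exact this
  · set b : Fin 5 → Bool := fun i => decide (i ∈ G) with hb
    have hlen : 2 ≤ (lst b).length := by rw [hb, lst_length]; exact h
    obtain ⟨h0, h1, h2⟩ := W_check2 b hlen
    have hne : lst b ≠ [] := by
      intro h3; rw [h3] at hlen; simp at hlen
    have hlast : (lst b).getLastD 0 = (lst b).getLast hne := by
      rw [List.getLastD_eq_getLast?, List.getLast?_eq_some_getLast hne]; rfl
    have hsplit : lst b = (lst b).dropLast ++ [(lst b).getLastD 0] := by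
      rw [hlast]; exact (List.dropLast_append_getLast hne).symm
    refine exists_T WR_pm (r := (rr b : ℝ)) (by exact_mod_cast h0) ?_ ?_
    · unfold D
      rw [WR_shift, det_rat]
      have h4 := principal_neg (A := Wr (rr b)) (L := (lst b).dropLast) (a := (lst b).getLastD 0)
        (by rw [← hsplit]; exact lst_nodup _) h1 h2 (G.orderEmbOfFin rfl) (RelEmbedding.injective _)
        (by rw [← hsplit, hb, lst_toFinset]; exact Finset.image_orderEmbOfFin_univ G rfl)
      exact_mod_cast h4
    · intro Q hQ _ m f hf hfQ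
      rw [WR_shift, det_rat]
      have hsub : univ.image f ⊆ Q := by
        intro x hx
        obtain ⟨i, _, rfl⟩ := mem_image.mp hx
        exact hfQ i
      have h5 := W_check3 b (fun i => decide (i ∈ univ.image f)) hlen
        (by
          intro i hi
          have h6 : i ∈ univ.image f := by simpa using hi
          exact decide_eq_true (hQ.1 (hsub h6)))
        (by
          intro h6
          obtain ⟨x, hx, hxQ⟩ := Finset.exists_of_ssubset hQ
          have h7 := congrFun h6 x
          have h8 : b x = true := decide_eq_true hx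
          rw [h8] at h7
          exact hxQ (hsub (by simpa using h7)))
      exact_mod_cast principal_pos (lst_nodup _) h5 f hf (lst_toFinset _).symm

theorem idx_nonempty {n k : ℕ} (α : Fin k ↪o Fin n) (hk : 0 < k) : (idx α).Nonempty :=
  ⟨α ⟨0, hk⟩, mem_image_of_mem _ (mem_univ _)⟩

theorem charval {k : ℕ} (α : Fin k ↪o Fin 5) (r : ℝ) :
    (WC.submatrix α α - (r : ℂ) • (1 : Matrix (Fin k) (Fin k) ℂ)).det = ((D WR (idx α) r : ℝ) : ℂ) := by
  have e : WC.submatrix α α - (r : ℂ) • (1 : Matrix (Fin k) (Fin k) ℂ) =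
      ((WR - r • (1 : Matrix (Fin 5) (Fin 5) ℝ)).map (fun q => (q : ℂ))).submatrix α α := by
    ext i j
    by_cases hij : i = j
    · subst hij; simp [WC]
    · have : α i ≠ α j := fun h => hij (α.injective h)
      simp [WC, hij, this]
  rw [e, det_real, D_eq _ _ _ α.injective]
  rfl

theorem leastReal_sub {k : ℕ} (α : Fin k ↪o Fin 5) {t : ℝ} (h : T WR (idx α) t) :
    leastReal (WC.submatrix α α) = (t : EReal) := by
  apply leastReal_eq
  constructor
  · apply mem_spectrum_of_det
    rw [charval, h.2.1]; simp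
  · intro r hr
    have h1 := det_shift_zero hr
    rw [charval] at h1
    have h2 : D WR (idx α) r = 0 := by exact_mod_cast h1
    by_contra hcon
    push Not at hcon
    have := h.2.2.1 r hcon
    linarith

theorem WC_tau : IsTau WC := by
  constructor
  · intro k m β α hk hsub
    have hβ := idx_nonempty β hk
    have hα : (idx α).Nonempty := hβ.mono hsub
    obtain ⟨s, hs⟩ := exists_T_WR _ hβ
    obtain ⟨t, ht⟩ := exists_T_WR _ hα
    rw [leastReal_sub β hs, leastReal_sub α ht]
    refine ⟨?_, EReal.coe_lt_top _⟩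
    rw [EReal.coe_le_coe_iff]
    by_contra hcon
    push Not at hcon
    rcases hsub.ssubset_or_eq with h | h
    · have := ht.2.2.2 _ h hβ s hcon.le
      have h2 := hs.2.1
      linarith
    · rw [h] at hs
      have := ht.2.2.1 s hcon
      have h2 := hs.2.1
      linarith
  · have h5 : (idx (RelEmbedding.refl (α := Fin 5) (· ≤ ·) : Fin 5 ↪o Fin 5)).Nonempty := idx_nonempty _ (by norm_num)
    obtain ⟨t, ht⟩ := exists_T_WR _ h5
    have := leastReal_sub _ ht
    have e : WC.submatrix (RelEmbedding.refl (α := Fin 5) (· ≤ ·) : Fin 5 ↪o Fin 5)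
      (RelEmbedding.refl (α := Fin 5) (· ≤ ·) : Fin 5 ↪o Fin 5) = WC := by
      ext i j; rfl
    rw [e] at this
    rw [this]
    exact_mod_cast ht.1.le

theorem WC_strict : IsStrictGKK WC := by
  have hmin : ∀ (k : ℕ) (α β : Fin k ↪o Fin 5), minor WC α β = (((W.submatrix α β).det : ℝ) : ℂ) := by
    intro k α β
    unfold minor WC WR
    rw [det_real, det_rat]
  constructor
  · intro k α
    rw [hmin]
    refine ⟨Complex.ofReal_im _, ?_⟩
    rw [Complex.ofReal_re]
    have := (W_check1 (fun i => decide (i ∈ univ.image α))).1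
    exact_mod_cast principal_pos (lst_nodup _) this α α.injective (lst_toFinset _).symm
  · intro k α β hd
    rw [hmin, hmin, ← Complex.ofReal_mul]
    refine ⟨Complex.ofReal_im _, ?_⟩
    rw [Complex.ofReal_re]
    have h1 : ∀ G : Finset (Fin 5), ∃ L : List (Fin 5), L.Nodup ∧ L.toFinset = G ∧ PP W L ∧
      ∀ i j, i ∉ G → j ∉ G → i ≠ j → 0 < pivL W L i j * pivL W L j i := by
      intro G
      obtain ⟨h2, h3⟩ := W_check1 (fun i => decide (i ∈ G))
      exact ⟨_, lst_nodup _, lst_toFinset G, h2, fun i j hi hj => h3 i j (by simpa using hi) (by simpa using hj)⟩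
    have h4 := almost_pos h1 α β α.injective β.injective (by
      unfold dispersal idx at hd; omega)
    exact_mod_cast h4

end Witness

section Unstable

/-- Laplace expansion along the first row -/
def detL {R : Type*} [CommRing R] : (n : ℕ) → (Fin n → Fin n → R) → R
  | 0, _ => 1
  | n + 1, A => ((List.finRange (n + 1)).map (fun j : Fin (n + 1) => (-1) ^ (j : ℕ) * A 0 j *
      detL n (fun a b => A a.succ (j.succAbove b)))).sum

theorem detL_eq {R : Type*} [CommRing R] : ∀ (n : ℕ) (A : Matrix (Fin n) (Fin n) R), detL n A = A.det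
  | 0, A => by simp [detL]
  | n + 1, A => by
    rw [Matrix.det_succ_row_zero]
    have h : detL (n + 1) A = ((List.finRange (n + 1)).map (fun j : Fin (n + 1) => (-1) ^ (j : ℕ) * A 0 j *
      detL n (fun a b => A a.succ (j.succAbove b)))).sum := rfl
    rw [h, ← List.ofFn_eq_map, List.sum_ofFn]
    apply Finset.sum_congr rfl
    intro j _
    congr 1
    exact detL_eq n (A.submatrix Fin.succ j.succAbove)

/-- `10 ^ 23` times the witness shifted by `7 + 24 i`, with Gaussian integer entries -/
def NG : Matrix (Fin 5) (Fin 5) GaussianInt := fun i j =>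
  if j = 0 then (if i = 0 then ⟨50632 * 10 ^ 23, 24 * 10 ^ 23⟩ else ⟨50625 * 10 ^ 23, 0⟩)
  else if i = 0 then ⟨160 * 10 ^ 23, 0⟩ else if i = j then ⟨168 * 10 ^ 23, 24 * 10 ^ 23⟩
  else if j < i then ⟨160 * 10 ^ 23 - 10 ^ 15, 0⟩
  else if (j : ℕ) = i + 1 then ⟨10 ^ 15, 0⟩ else if (j : ℕ) = i + 2 then ⟨10 ^ 8, 0⟩ else ⟨1, 0⟩

theorem NG_check : (detL 5 NG).norm < 7 ^ 10 * 10 ^ 230 := by
  decide +kernel

/-- the embedding of the Gaussian integers -/
noncomputable def gC : GaussianInt →+* ℂ := GaussianInt.toComplex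

theorem gC_apply (a b : ℤ) : gC (⟨a, b⟩ : GaussianInt) = (a : ℂ) + (b : ℂ) * Complex.I := by
  unfold gC
  rw [GaussianInt.toComplex_def₂]
  apply Complex.ext <;> simp

theorem NG_map : NG.map gC = (10 ^ 23 : ℂ) • (WC + (7 + 24 * Complex.I) • (1 : Matrix (Fin 5) (Fin 5) ℂ)) := by
  ext i j
  fin_cases i <;> fin_cases j <;>
    simp [NG, WC, WR, W, gC_apply] <;> norm_num <;> ring

theorem WC_unstable : ∃ μ ∈ spectrum ℂ WC, μ.re < 0 := by
  apply unstable_of_det_small WC (7 + 24 * Complex.I) (by simp)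
  have h1 := congrArg Matrix.det NG_map
  have h2 : (NG.map gC).det = gC NG.det := by
    rw [RingHom.map_det]; rfl
  rw [h2, Matrix.det_smul, ← detL_eq 5 NG] at h1
  set d := (WC + (7 + 24 * Complex.I) • (1 : Matrix (Fin 5) (Fin 5) ℂ)).det with hd
  have h3 := congrArg Complex.normSq h1
  have h4 : Complex.normSq (gC (detL 5 NG)) = ((detL 5 NG).norm : ℝ) :=
    (GaussianInt.intCast_real_norm (detL 5 NG)).symm
  have h5 : Complex.normSq ((10 ^ 23 : ℂ) ^ Fintype.card (Fin 5)) = 10 ^ 230 := by
    rw [Fintype.card_fin, map_pow, map_pow]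
    have : Complex.normSq (10 : ℂ) = 100 := by
      rw [show (10 : ℂ) = ((10 : ℝ) : ℂ) by norm_num, Complex.normSq_ofReal]; norm_num
    rw [this]; norm_num
  rw [h4, Complex.normSq_mul, h5] at h3
  have h6 : ((detL 5 NG).norm : ℝ) < 7 ^ 10 * 10 ^ 230 := by exact_mod_cast NG_check
  rw [h3, mul_comm] at h6
  have h7 : Complex.normSq d < 7 ^ 10 := lt_of_mul_lt_mul_right h6 (by positivity)
  rw [Complex.normSq_eq_norm_sq] at h7
  have h8 : ‖d‖ < 7 ^ 5 := by
    apply lt_of_pow_lt_pow_left₀ 2 (by norm_num)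
    calc ‖d‖ ^ 2 < 7 ^ 10 := h7
      _ = (7 ^ 5) ^ 2 := by norm_num
  simpa using h8

/-- There is a strict GKK tau-matrix (of order 5) having an eigenvalue with negative real part. -/
theorem result : ∃ A : Matrix (Fin 5) (Fin 5) ℂ, IsStrictGKK A ∧ IsTau A ∧ ∃ μ ∈ spectrum ℂ A, μ.re < 0 :=
  ⟨WC, WC_strict, WC_tau, WC_unstable⟩

end Unstable

end Pool.Agent.Results.MP_25f4f2_al.StrictTauUnstable
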